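import Mathlib

/-! Invariant projections in von Neumann algebras: definitions. -/

namespace Pool.Agent.H282R6.VR

universe u

variable {H : Type u} [NormedAddCommGroup H] [InnerProductSpace ℂ H] [CompleteSpace H]

/-- orthogonal projection different from `0` and `1` -/
def ProperProj (P : H →L[ℂ] H) : Prop :=
  IsIdempotentElem P ∧ IsSelfAdjoint P ∧ P ≠ 0 ∧ P ≠ 1

/-- `A` has an invariant subspace in `M`: some projection `P ≠ 0, 1` in `M` has `AP = PAP` -/
def HasInv (M : VonNeumannAlgebra H) (A : H →L[ℂ] H) : Prop :=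
  ∃ P ∈ M, ProperProj P ∧ A * P = P * A * P

/-- `M ≠ ℂ1`, in the form: `M` contains a projection different from `0` and `1` -/
def Nontriv (M : VonNeumannAlgebra H) : Prop := ∃ Q ∈ M, ProperProj Q

/-- `M` is a factor: it has no central projection different from `0` and `1` -/
def IsFact (M : VonNeumannAlgebra H) : Prop :=
  ∀ Q ∈ M, (∀ T ∈ M, Q * T = T * Q) → ¬ ProperProj Q

/-- the commutant of `{A, A*}` -/
def Com (A : H →L[ℂ] H) : Set (H →L[ℂ] H) := {S | A * S = S * A ∧ star A * S = S * star A}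

/-- `M` is generated by `A` as a von Neumann algebra, i.e. `M = {A, A*}''` -/
def Generates (M : VonNeumannAlgebra H) (A : H →L[ℂ] H) : Prop :=
  ∀ T : H →L[ℂ] H, T ∈ M ↔ ∀ S ∈ Com A, T * S = S * T

/-- `M` has a cyclic vector -/
def HasCyclic (M : VonNeumannAlgebra H) : Prop :=
  ∃ ξ : H, Dense ((fun T : H →L[ℂ] H => T ξ) '' (M : Set (H →L[ℂ] H)))

end Pool.Agent.H282R6.VR
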