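import Mathlib
import Pool.Agent.H282R6.VR.Defs

set_option autoImplicit false

namespace Pool.Agent.H282R6.VR

universe u

theorem cyc {K : Type u} [NormedAddCommGroup K] [InnerProductSpace ℂ K] [CompleteSpace K]
    (B : K →L[ℂ] K) (N : VonNeumannAlgebra K) (hN : Generates N B) (ξ : K)
    (h : ∀ R : Submodule ℂ K, IsClosed (R : Set K) → ξ ∈ R → (∀ x ∈ R, B x ∈ R) →
        (∀ x ∈ R, (star B) x ∈ R) → R = ⊤) : HasCyclic N := by
  have hB : B ∈ N := (hN B).2 fun S hS => hS.1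
  have hB' : star B ∈ N := (hN (star B)).2 fun S hS => hS.2
  have h1 : (1 : K →L[ℂ] K) ∈ N := (hN 1).2 fun S _ => by rw [one_mul, mul_one]
  have hmul : ∀ T T' : K →L[ℂ] K, T ∈ N → T' ∈ N → T * T' ∈ N := by
    intro T T' hT hT'
    refine (hN _).2 fun S hS => ?_
    rw [mul_assoc, (hN T').1 hT' S hS, ← mul_assoc, (hN T).1 hT S hS, mul_assoc]
  have hadd : ∀ T T' : K →L[ℂ] K, T ∈ N → T' ∈ N → T + T' ∈ N := by
    intro T T' hT hT'
    refine (hN _).2 fun S hS => ?_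
    rw [add_mul, mul_add, (hN T').1 hT' S hS, (hN T).1 hT S hS]
  have hzero : (0 : K →L[ℂ] K) ∈ N := (hN 0).2 fun S _ => by rw [zero_mul, mul_zero]
  have hsmul : ∀ (c : ℂ) (T : K →L[ℂ] K), T ∈ N → c • T ∈ N := by
    intro c T hT
    refine (hN _).2 fun S hS => ?_
    rw [smul_mul_assoc, mul_smul_comm, (hN T).1 hT S hS]
  let S0 : Submodule ℂ K :=
    { carrier := (fun T : K →L[ℂ] K => T ξ) '' (N : Set (K →L[ℂ] K))
      add_mem' := by
        rintro _ _ ⟨T, hT, rfl⟩ ⟨T', hT', rfl⟩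
        exact ⟨T + T', hadd T T' hT hT', rfl⟩
      zero_mem' := ⟨0, hzero, rfl⟩
      smul_mem' := by
        rintro c _ ⟨T, hT, rfl⟩
        exact ⟨c • T, hsmul c T hT, rfl⟩ }
  have hinv : ∀ A : K →L[ℂ] K, A ∈ N → ∀ x ∈ S0.topologicalClosure,
      A x ∈ S0.topologicalClosure := by
    intro A hA x hx
    refine map_mem_closure A.continuous hx ?_
    rintro _ ⟨T, hT, rfl⟩
    exact ⟨A * T, hmul A T hA hT, rfl⟩
  have htop : S0.topologicalClosure = ⊤ :=
    h _ S0.isClosed_topologicalClosure (S0.le_topologicalClosure ⟨1, h1, rfl⟩)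
      (hinv B hB) (hinv (star B) hB')
  refine ⟨ξ, ?_⟩
  have hd : Dense (S0 : Set K) := Submodule.dense_iff_topologicalClosure_eq_top.2 htop
  exact hd

end Pool.Agent.H282R6.VR
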