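import Pool.Agent.H282R6.VR.Defs

namespace Pool.Agent.H282R6.VR

universe u

variable {H : Type u} [NormedAddCommGroup H] [InnerProductSpace ℂ H] [CompleteSpace H]

/-- countability of the support of an orthogonal family of projections at a vector -/
theorem nonsigma_countable {ι : Type u} (Q : ι → (H →L[ℂ] H))
    (hQi : ∀ i, IsIdempotentElem (Q i)) (hQs : ∀ i, IsSelfAdjoint (Q i))
    (ho : ∀ i j, i ≠ j → Q i * Q j = 0) (v : H) :
    {i | Q i v ≠ 0}.Countable := by
  classical
  have hin : ∀ i (x y : H), inner ℂ (Q i x) y = inner ℂ x (Q i y) := by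
    intro i x y
    have h := ContinuousLinearMap.isSelfAdjoint_iff_isSymmetric.mp (hQs i)
    exact h x y
  have horth : ∀ i j, i ≠ j → inner ℂ (Q i v) (Q j v) = 0 := by
    intro i j hij
    rw [hin, ← mul_apply_eq_comp, ho i j hij]
    simp
  have hself : ∀ i, inner ℂ (Q i v) v = ((‖Q i v‖ ^ 2 : ℝ) : ℂ) := by
    intro i
    have h1 : Q i (Q i v) = Q i v := by
      rw [← mul_apply_eq_comp, (hQi i).eq]
    have h2 : inner ℂ (Q i v) v = inner ℂ (Q i v) (Q i v) := by
      conv_lhs => rw [← h1]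
      rw [hin]
    rw [h2, inner_self_eq_norm_sq_to_K]
    push_cast
    rfl
  have hsum : ∀ F : Finset ι, ∑ i ∈ F, ‖Q i v‖ ^ 2 ≤ ‖v‖ ^ 2 := by
    intro F
    set w : H := ∑ i ∈ F, Q i v with hw
    have hwv : inner ℂ w v = ((∑ i ∈ F, ‖Q i v‖ ^ 2 : ℝ) : ℂ) := by
      rw [hw, sum_inner]
      push_cast
      refine Finset.sum_congr rfl fun i _ => ?_
      rw [hself i]
      push_cast
      rfl
    have hww : inner ℂ w w = ((∑ i ∈ F, ‖Q i v‖ ^ 2 : ℝ) : ℂ) := by
      rw [hw, sum_inner]
      push_cast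
      refine Finset.sum_congr rfl fun i hi => ?_
      rw [inner_sum, Finset.sum_eq_single i]
      · rw [inner_self_eq_norm_sq_to_K]
        rfl
      · intro j _ hj
        exact horth i j (Ne.symm hj)
      · intro h
        exact absurd hi h
    have h3 : ‖v - w‖ ^ 2 = ‖v‖ ^ 2 - ∑ i ∈ F, ‖Q i v‖ ^ 2 := by
      have h4 : ‖v - w‖ ^ 2 = ‖v‖ ^ 2 - 2 * RCLike.re (inner ℂ v w) + ‖w‖ ^ 2 :=
        norm_sub_sq v w
      have h5 : RCLike.re (inner ℂ v w) = ∑ i ∈ F, ‖Q i v‖ ^ 2 := by
        rw [← inner_conj_symm, hwv, Complex.conj_ofReal]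
        exact Complex.ofReal_re _
      have h6 : ‖w‖ ^ 2 = ∑ i ∈ F, ‖Q i v‖ ^ 2 := by
        have h7 := congrArg Complex.re hww
        rw [Complex.ofReal_re] at h7
        rw [← h7, ← inner_self_eq_norm_sq (𝕜 := ℂ) w]
        rfl
      rw [h4, h5, h6]
      ring
    have h8 : 0 ≤ ‖v - w‖ ^ 2 := by positivity
    linarith
  have hS : Summable fun i => ‖Q i v‖ ^ 2 :=
    summable_of_sum_le (fun i => by positivity) hsum
  refine hS.countable_support.mono ?_
  intro i hi
  simp only [Function.mem_support, ne_eq, Set.mem_ofPred_eq] at hi ⊢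
  intro h
  apply hi
  have := pow_eq_zero_iff (two_ne_zero) |>.mp h
  exact norm_eq_zero.mp this

theorem nonsigma (M : VonNeumannAlgebra H) (A : H →L[ℂ] H) (hA : A ∈ M)
    {ι : Type u} (hι : Uncountable ι) (Q : ι → (H →L[ℂ] H)) (hQ : ∀ i, Q i ∈ M ∧ Q i ≠ 0 ∧
      IsIdempotentElem (Q i) ∧ IsSelfAdjoint (Q i)) (ho : ∀ i j, i ≠ j → Q i * Q j = 0) :
    HasInv M A := by
  classical
  -- a nonzero vector
  obtain ⟨i0⟩ : Nonempty ι := inferInstance
  obtain ⟨ξ, hξ⟩ : ∃ ξ : H, ξ ≠ 0 := by
    by_contra hcon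
    push Not at hcon
    apply (hQ i0).2.1
    ext x
    rw [hcon x]
    simp
  let S0 : Set H := {x | ∃ T ∈ M.commutant, ∃ n : ℕ, x = T ((A ^ n) ξ)}
  let R : Submodule ℂ H := (Submodule.span ℂ S0).topologicalClosure
  have hRcl : IsClosed (R : Set H) := Submodule.isClosed_topologicalClosure _
  have : CompleteSpace R := hRcl.completeSpace_coe
  have : R.HasOrthogonalProjection := inferInstance
  -- generators lie in R
  have hgen : ∀ T ∈ M.commutant, ∀ n : ℕ, T ((A ^ n) ξ) ∈ R := by
    intro T hT n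
    exact Submodule.le_topologicalClosure _ (Submodule.subset_span ⟨T, hT, n, rfl⟩)
  -- invariance criterion
  have hinv : ∀ B : H →L[ℂ] H, (∀ x ∈ S0, B x ∈ R) → ∀ x ∈ R, B x ∈ R := by
    intro B hB x hx
    have h1 : Submodule.span ℂ S0 ≤ R.comap (B : H →ₗ[ℂ] H) := by
      rw [Submodule.span_le]
      intro y hy
      exact hB y hy
    have h2 : IsClosed ((R.comap (B : H →ₗ[ℂ] H) : Submodule ℂ H) : Set H) :=
      hRcl.preimage B.continuous
    have h3 := Submodule.topologicalClosure_minimal _ h1 h2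
    exact h3 hx
  have hRS : ∀ S ∈ M.commutant, ∀ x ∈ R, S x ∈ R := by
    intro S hS
    apply hinv
    rintro x ⟨T, hT, n, rfl⟩
    have := hgen (S * T) (mul_mem hS hT) n
    simpa using this
  have hRA : ∀ x ∈ R, A x ∈ R := by
    apply hinv
    rintro x ⟨T, hT, n, rfl⟩
    have h1 := hgen T hT (n + 1)
    have h2 : A * T = T * A := (VonNeumannAlgebra.mem_commutant_iff.mp hT) A hA
    have h3 : A (T ((A ^ n) ξ)) = T ((A ^ (n + 1)) ξ) := by
      rw [pow_succ', mul_apply_eq_comp, ← mul_apply_eq_comp,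
        ← mul_apply_eq_comp, h2]
      rfl
    rw [h3]
    exact h1
  have hPmem : ∀ x, R.starProjection x ∈ R := fun x => R.starProjection_apply_mem x
  have hPself : ∀ x ∈ R, R.starProjection x = x := fun x hx =>
    Submodule.starProjection_eq_self_iff.mpr hx
  refine ⟨R.starProjection, ?_, ⟨R.isIdempotentElem_starProjection,
    isSelfAdjoint_starProjection R, ?_, ?_⟩, ?_⟩
  · -- membership in M
    rw [← VonNeumannAlgebra.commutant_commutant M, VonNeumannAlgebra.mem_commutant_iff]
    intro S hS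
    -- star S also in the commutant
    have hS' : star S ∈ M.commutant := star_mem hS
    have h1 : ∀ T ∈ M.commutant, T * R.starProjection = R.starProjection * T * R.starProjection := by
      intro T hT
      ext x
      simp only [mul_apply_eq_comp]
      rw [hPself _ (hRS T hT _ (hPmem x))]
    have h2 := h1 S hS
    have h3 := congrArg star (h1 (star S) hS')
    have hsP : star R.starProjection = R.starProjection := isSelfAdjoint_starProjection R
    simp only [star_mul, star_star, hsP] at h3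
    rw [mul_assoc] at h2
    exact h2.trans h3.symm
  · -- nonzero
    intro h
    have h1 := hgen 1 (one_mem _) 0
    simp only [pow_zero, one_apply_eq_self] at h1
    have h2 := hPself ξ h1
    rw [h] at h2
    apply hξ
    rw [← h2]
    rfl
  · -- not one
    intro h
    have hall : ∀ x, x ∈ R := by
      intro x
      have := hPmem x
      rw [h] at this
      exact this
    have hex : ∀ i, ∃ n : ℕ, Q i ((A ^ n) ξ) ≠ 0 := by
      intro i
      by_contra hcon
      push Not at hcon
      apply (hQ i).2.1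
      have h1 : Submodule.span ℂ S0 ≤ LinearMap.ker (Q i : H →ₗ[ℂ] H) := by
        rw [Submodule.span_le]
        rintro y ⟨T, hT, n, rfl⟩
        have h2 : Q i * T = T * Q i := (VonNeumannAlgebra.mem_commutant_iff.mp hT) _ (hQ i).1
        have h3 : Q i (T ((A ^ n) ξ)) = T (Q i ((A ^ n) ξ)) := by
          rw [← mul_apply_eq_comp, h2, mul_apply_eq_comp]
        show Q i (T ((A ^ n) ξ)) = 0
        rw [h3, hcon n, map_zero]
      have h4 : IsClosed ((LinearMap.ker (Q i : H →ₗ[ℂ] H) : Submodule ℂ H) : Set H) :=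
        isClosed_singleton.preimage (Q i).continuous
      have h5 := Submodule.topologicalClosure_minimal _ h1 h4
      ext x
      exact h5 (hall x)
    have hcov : (Set.univ : Set ι) ⊆ ⋃ n : ℕ, {i | Q i ((A ^ n) ξ) ≠ 0} := by
      intro i _
      obtain ⟨n, hn⟩ := hex i
      exact Set.mem_iUnion.mpr ⟨n, hn⟩
    have hc : (Set.univ : Set ι).Countable :=
      (Set.countable_iUnion fun n => nonsigma_countable Q (fun i => (hQ i).2.2.1)
        (fun i => (hQ i).2.2.2) ho ((A ^ n) ξ)).mono hcov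
    exact (not_countable (α := ι)) (Set.countable_univ_iff.mp hc)
  · ext x
    simp only [mul_apply_eq_comp]
    rw [hPself _ (hRA _ (hPmem x))]

end Pool.Agent.H282R6.VR
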