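import Pool.Agent.H282R6.VR.Defs

/-! `M ≠ ℂ1` contains a proper projection. -/

set_option autoImplicit false

namespace Pool.Agent.H282R6.VR

universe u

variable {H : Type u} [NormedAddCommGroup H] [InnerProductSpace ℂ H] [CompleteSpace H]

private theorem sa_scalar (T : H →L[ℂ] H) (hT : IsSelfAdjoint T) (s : ℝ)
    (h : ∀ x ∈ spectrum ℝ T, x = s) : T = (s : ℂ) • (1 : H →L[ℂ] H) := by
  have h1 : cfc (fun x : ℝ => x) T = cfc (fun _ : ℝ => s) T := cfc_congr (fun x hx => h x hx)
  rw [cfc_id' ℝ T hT, cfc_const s T hT] at h1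
  rw [h1, Algebra.algebraMap_eq_smul_one, Complex.coe_smul]

private theorem cfc_ne {T : H →L[ℂ] H} (hT : IsSelfAdjoint T) (hn : Nontrivial (H →L[ℂ] H))
    (f : ℝ → ℝ) (hf : Continuous f) (t : ℝ) (ht : t ∈ spectrum ℝ T) (hft : f t ≠ 0) :
    cfc f T ≠ 0 := by
  intro h0
  have h1 : f t ∈ spectrum ℝ (cfc f T) := by
    rw [cfc_map_spectrum f T hT hf.continuousOn]
    exact ⟨t, ht, rfl⟩
  rw [h0, spectrum.zero_eq] at h1
  exact hft h1

private theorem proj_of (M : VonNeumannAlgebra H) (T F G : H →L[ℂ] H) (hTM : T ∈ M)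
    (hF : IsSelfAdjoint F) (hcomm : ∀ g : H →L[ℂ] H, Commute T g → Commute F g)
    (hF0 : F ≠ 0) (hG0 : G ≠ 0) (hGF : G * F = 0) : Nontriv M := by
  let K : Submodule ℂ H := (LinearMap.range (F : H →ₗ[ℂ] H)).topologicalClosure
  have hKc : IsClosed (K : Set H) := Submodule.isClosed_topologicalClosure _
  have : CompleteSpace K := hKc.completeSpace_coe
  have hKset : (K : Set H) = closure (Set.range F) := by
    rw [Submodule.topologicalClosure_coe]
    rfl
  have hFK : ∀ x, F x ∈ K := fun x => by
    have : F x ∈ (K : Set H) := by rw [hKset]; exact subset_closure ⟨x, rfl⟩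
    exact this
  let P : H →L[ℂ] H := K.starProjection
  have hPsa : IsSelfAdjoint P := isSelfAdjoint_starProjection K
  have hPK : ∀ x, P x ∈ K := fun x => K.starProjection_apply_mem x
  have hPid : ∀ x ∈ K, P x = x := fun x hx => Submodule.starProjection_eq_self_iff.2 hx
  have hinv : ∀ g : H →L[ℂ] H, Commute F g → ∀ x ∈ K, g x ∈ K := by
    intro g hg x hx
    have hx' : x ∈ closure (Set.range F) := by rw [← hKset]; exact hx
    have h2 : g x ∈ closure (Set.range F) := by
      refine map_mem_closure g.continuous hx' ?_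
      rintro y ⟨z, rfl⟩
      refine ⟨g z, ?_⟩
      have := congrArg (fun S : H →L[ℂ] H => S z) hg.eq
      simpa using this
    rw [← hKset] at h2
    exact h2
  have hPg : ∀ g : H →L[ℂ] H, Commute F g → P * g * P = g * P := by
    intro g hg
    ext x
    exact hPid _ (hinv g hg _ (hPK x))
  refine ⟨P, ?_, ?_, hPsa, ?_, ?_⟩
  · rw [← M.commutant_commutant, VonNeumannAlgebra.mem_commutant_iff]
    intro g hg
    have hTg : Commute T g := (VonNeumannAlgebra.mem_commutant_iff.1 hg T hTM)
    have hg' : star g ∈ M.commutant := star_mem hg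
    have hTg' : Commute T (star g) := (VonNeumannAlgebra.mem_commutant_iff.1 hg' T hTM)
    have e1 := hPg g (hcomm g hTg)
    have e2 := hPg (star g) (hcomm _ hTg')
    have e3 := congrArg star e2
    rw [star_mul, star_mul, star_mul, star_star, hPsa.star_eq] at e3
    rw [← e1, mul_assoc, e3]
  · show IsIdempotentElem K.starProjection
    exact Submodule.isIdempotentElem_starProjection K
  · intro h0
    apply hF0
    ext x
    have := hPid (F x) (hFK x)
    have hP0 : P (F x) = 0 := by
      have : P = 0 := h0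
      rw [this]; rfl
    rw [← this, hP0]
    rfl
  · intro h1
    apply hG0
    have hGK : ∀ x ∈ K, G x = 0 := by
      intro x hx
      have hx' : x ∈ closure (Set.range F) := by rw [← hKset]; exact hx
      have hcl : IsClosed {y : H | G y = 0} := isClosed_eq G.continuous continuous_const
      have hsub : Set.range F ⊆ {y : H | G y = 0} := by
        rintro y ⟨z, rfl⟩
        have := congrArg (fun S : H →L[ℂ] H => S z) hGF
        simpa using this
      exact closure_minimal hsub hcl hx'
    ext x
    have h2 : P x = x := by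
      have : P = 1 := h1
      rw [this]; rfl
    have h3 := hGK (P x) (hPK x)
    rw [h2] at h3
    rw [h3]
    rfl

private theorem nontriv_sa (M : VonNeumannAlgebra H) (T : H →L[ℂ] H) (hTM : T ∈ M)
    (hT : IsSelfAdjoint T) (h : ∀ c : ℂ, T ≠ c • (1 : H →L[ℂ] H)) : Nontriv M := by
  have hn : Nontrivial (H →L[ℂ] H) := by
    refine ⟨T, 0, ?_⟩
    have := h 0
    rwa [zero_smul] at this
  have hex : ∃ s ∈ spectrum ℝ T, ∃ t ∈ spectrum ℝ T, s < t := by
    by_contra hcon
    push Not at hcon
    by_cases hne : ∃ s, s ∈ spectrum ℝ T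
    · obtain ⟨s, hs⟩ := hne
      refine h (s : ℂ) (sa_scalar T hT s (fun x hx => ?_))
      exact le_antisymm (hcon s hs x hx) (hcon x hx s hs)
    · push Not at hne
      exact h ((0 : ℝ) : ℂ) (sa_scalar T hT 0 (fun x hx => absurd hx (hne x)))
  obtain ⟨s, hs, t, ht, hst⟩ := hex
  let m : ℝ := (s + t) / 2
  let f : ℝ → ℝ := fun x => max (x - m) 0
  let g : ℝ → ℝ := fun x => max (m - x) 0
  have hf : Continuous f := (continuous_id.sub continuous_const).max continuous_const
  have hg : Continuous g := (continuous_const.sub continuous_id).max continuous_const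
  have hgf : ∀ x, g x * f x = 0 := by
    intro x
    rcases le_total x m with hx | hx
    · have : f x = 0 := max_eq_right (by linarith)
      rw [this, mul_zero]
    · have : g x = 0 := max_eq_right (by linarith)
      rw [this, zero_mul]
  refine proj_of M T (cfc f T) (cfc g T) hTM (cfc_predicate f T) ?_ ?_ ?_ ?_
  · intro S hS
    exact Commute.cfc_real hS f
  · refine cfc_ne hT hn f hf t ht ?_
    have : 0 < t - m := by simp only [m]; linarith
    exact ne_of_gt (lt_of_lt_of_le this (le_max_left _ _))
  · refine cfc_ne hT hn g hg s hs ?_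
    have : 0 < m - s := by simp only [m]; linarith
    exact ne_of_gt (lt_of_lt_of_le this (le_max_left _ _))
  · rw [← cfc_mul g f T hg.continuousOn hf.continuousOn]
    have : (fun x => g x * f x) = fun _ : ℝ => (0 : ℝ) := funext hgf
    rw [this]
    exact cfc_const_zero ℝ T

theorem nontriv_of_nonscalar (M : VonNeumannAlgebra H) (A : H →L[ℂ] H) (hA : A ∈ M)
    (h : ∀ c : ℂ, A ≠ c • (1 : H →L[ℂ] H)) : Nontriv M := by
  by_cases h1 : ∃ c : ℂ, A + star A = c • (1 : H →L[ℂ] H)
  · by_cases h2 : ∃ c : ℂ, Complex.I • (A - star A) = c • (1 : H →L[ℂ] H)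
    · exfalso
      obtain ⟨c1, hc1⟩ := h1
      obtain ⟨c2, hc2⟩ := h2
      refine h ((c1 - Complex.I * c2) / 2) ?_
      have e1 : A = (1 / 2 : ℂ) • (A + star A) + (-(Complex.I / 2)) • (Complex.I • (A - star A)) := by
        rw [smul_smul]
        have : -(Complex.I / 2) * Complex.I = 1 / 2 := by
          have := Complex.I_mul_I
          linear_combination (-1 / 2 : ℂ) * this
        rw [this, ← smul_add, add_add_sub_cancel, ← two_smul ℂ A, smul_smul]
        norm_num
      rw [hc1, hc2] at e1
      rw [smul_smul, smul_smul, ← add_smul] at e1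
      rw [e1]
      congr 1
      ring
    · push Not at h2
      refine nontriv_sa M _ ?_ ?_ h2
      · exact M.toStarSubalgebra.smul_mem (sub_mem hA (star_mem hA)) _
      · rw [IsSelfAdjoint, star_smul, star_sub, star_star]
        have : star Complex.I = -Complex.I := Complex.conj_I
        rw [this, neg_smul, ← smul_neg, neg_sub]
  · push Not at h1
    refine nontriv_sa M _ (add_mem hA (star_mem hA)) ?_ h1
    rw [IsSelfAdjoint, star_add, star_star, add_comm]

end Pool.Agent.H282R6.VR
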