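import Pool.Agent.H282R6.VR.Defs

/-! Pull-back of invariant projections along an intertwining isometry. -/

namespace Pool.Agent.H282R6.VR

universe u

variable {H : Type u} [NormedAddCommGroup H] [InnerProductSpace ℂ H] [CompleteSpace H]

open scoped InnerProductSpace

/-- the projection onto a closed subspace left invariant by `T` and `star T` commutes with `T` -/
theorem pull_comm (R : Submodule ℂ H) [R.HasOrthogonalProjection] (T : H →L[ℂ] H)
    (h1 : ∀ x ∈ R, T x ∈ R) (h2 : ∀ x ∈ R, (star T) x ∈ R) :
    T * R.starProjection = R.starProjection * T := by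
  have key : ∀ S : H →L[ℂ] H, (∀ x ∈ R, S x ∈ R) →
      R.starProjection * S * R.starProjection = S * R.starProjection := by
    intro S hS
    ext x
    simp only [ContinuousLinearMap.mul_apply]
    exact Submodule.starProjection_eq_self_iff.2 (hS _ (Submodule.starProjection_apply_mem R x))
  have e1 := key T h1
  have e2 := key (star T) h2
  have hs : star R.starProjection = R.starProjection := by
    exact (isSelfAdjoint_starProjection R).star_eq
  have e3 := congrArg star e2
  simp only [star_mul, star_star, hs] at e3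
  calc T * R.starProjection = R.starProjection * T * R.starProjection := e1.symm
    _ = R.starProjection * (T * R.starProjection) := mul_assoc _ _ _
    _ = R.starProjection * T := e3

theorem pull (M : VonNeumannAlgebra H) (A : H →L[ℂ] H) (hA : A ∈ M)
    {K : Type u} [NormedAddCommGroup K] [InnerProductSpace ℂ K] [CompleteSpace K]
    (p : K →ₗᵢ[ℂ] H) (B : K →L[ℂ] K) (h1 : ∀ k, A (p k) = p (B k))
    (h2 : ∀ k, (star A) (p k) = p ((star B) k)) (N : VonNeumannAlgebra K) (hN : Generates N B)
    (h : HasInv N B) : HasInv M A := by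
  obtain ⟨P0, hP0N, ⟨hid, hsa, hne0, hne1⟩, hinv⟩ := h
  obtain ⟨pc, hpc⟩ : ∃ pc : K →L[ℂ] H, pc = p.toContinuousLinearMap := ⟨_, rfl⟩
  have hpk : ∀ k, pc k = p k := by intro k; rw [hpc]; rfl
  obtain ⟨W, hW⟩ : ∃ W : Submodule ℂ H,
      W = Submodule.span ℂ {x | ∃ T ∈ Com A, ∃ k : K, x = T (p (P0 k))} := ⟨_, rfl⟩
  obtain ⟨R, hR⟩ : ∃ R : Submodule ℂ H, R = W.topologicalClosure := ⟨_, rfl⟩
  have hRc : IsClosed (R : Set H) := by
    rw [hR]; exact Submodule.isClosed_topologicalClosure W
  haveI : CompleteSpace R := hRc.completeSpace_coe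
  have hWR : W ≤ R := by rw [hR]; exact Submodule.le_topologicalClosure W
  -- elements of generating set
  have hgen : ∀ T ∈ Com A, ∀ k : K, T (p (P0 k)) ∈ R := by
    intro T hT k
    apply hWR
    rw [hW]
    exact Submodule.subset_span ⟨T, hT, k, rfl⟩
  -- a closed-subspace induction principle
  have hclo : ∀ (S : H →L[ℂ] H) (V : Submodule ℂ H), IsClosed (V : Set H) →
      (∀ T ∈ Com A, ∀ k : K, S (T (p (P0 k))) ∈ V) → ∀ x ∈ R, S x ∈ V := by
    intro S V hV hS x hx
    have hle : R ≤ V.comap (S : H →ₗ[ℂ] H) := by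
      rw [hR]
      apply Submodule.topologicalClosure_minimal
      · rw [hW, Submodule.span_le]
        rintro _ ⟨T, hT, k, rfl⟩
        exact hS T hT k
      · exact hV.preimage S.continuous
    exact hle hx
  have hComMul : ∀ S ∈ Com A, ∀ T ∈ Com A, S * T ∈ Com A := by
    rintro S ⟨hS1, hS2⟩ T ⟨hT1, hT2⟩
    refine ⟨?_, ?_⟩
    · rw [← mul_assoc, hS1, mul_assoc, hT1, mul_assoc]
    · rw [← mul_assoc, hS2, mul_assoc, hT2, mul_assoc]
  have hComR : ∀ S ∈ Com A, ∀ x ∈ R, S x ∈ R := by
    intro S hS
    apply hclo S R hRc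
    intro T hT k
    exact hgen (S * T) (hComMul S hS T hT) k
  have hComStar : ∀ S ∈ Com A, star S ∈ Com A := by
    rintro S ⟨hS1, hS2⟩
    refine ⟨?_, ?_⟩
    · have := congrArg star hS2
      simp only [star_mul, star_star] at this
      exact this.symm
    · have := congrArg star hS1
      simp only [star_mul] at this
      exact this.symm
  have hOneCom : (1 : H →L[ℂ] H) ∈ Com A := ⟨by rw [mul_one, one_mul], by rw [mul_one, one_mul]⟩
  -- adjoint of p
  obtain ⟨q, hq⟩ : ∃ q : H →L[ℂ] K, q = ContinuousLinearMap.adjoint pc := ⟨_, rfl⟩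
  have hqi : ∀ (x : H) (k : K), ⟪q x, k⟫_ℂ = ⟪x, p k⟫_ℂ := by
    intro x k
    rw [hq, ContinuousLinearMap.adjoint_inner_left, hpk]
  have hqA : ∀ x : H, q (A x) = B (q x) := by
    intro x
    apply ext_inner_right ℂ
    intro k
    rw [hqi]
    have e1 : ⟪A x, p k⟫_ℂ = ⟪x, (star A) (p k)⟫_ℂ := by
      rw [ContinuousLinearMap.star_eq_adjoint, ContinuousLinearMap.adjoint_inner_right]
    rw [e1, h2, ← hqi, ContinuousLinearMap.star_eq_adjoint, ContinuousLinearMap.adjoint_inner_right]
  have hqA' : ∀ x : H, q ((star A) x) = (star B) (q x) := by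
    intro x
    apply ext_inner_right ℂ
    intro k
    rw [hqi, ContinuousLinearMap.star_eq_adjoint, ContinuousLinearMap.adjoint_inner_left, h1,
      ← hqi, ContinuousLinearMap.star_eq_adjoint, ContinuousLinearMap.adjoint_inner_left]
  have hqTp : ∀ T ∈ Com A, (q ∘L T ∘L pc) ∈ Com B := by
    rintro T ⟨hT1, hT2⟩
    have hT1' : ∀ x, A (T x) = T (A x) := fun x => by
      have := congrArg (fun S : H →L[ℂ] H => S x) hT1
      simpa using this
    have hT2' : ∀ x, (star A) (T x) = T ((star A) x) := fun x => by
      have := congrArg (fun S : H →L[ℂ] H => S x) hT2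
      simpa using this
    refine ⟨?_, ?_⟩
    · ext k
      simp only [ContinuousLinearMap.mul_apply, ContinuousLinearMap.comp_apply, hpk]
      rw [← hqA, hT1', h1]
    · ext k
      simp only [ContinuousLinearMap.mul_apply, ContinuousLinearMap.comp_apply, hpk]
      rw [← hqA', hT2', h2]
  have hcomm : ∀ T ∈ Com A, ∀ k : K, q (T (p (P0 k))) = P0 (q (T (p k))) := by
    intro T hT k
    have e := (hN P0).1 hP0N _ (hqTp T hT)
    have := congrArg (fun S : K →L[ℂ] K => S k) e
    simp only [ContinuousLinearMap.mul_apply, ContinuousLinearMap.comp_apply, hpk] at this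
    exact this.symm
  have hP0id : ∀ k, P0 (P0 k) = P0 k := by
    intro k
    have := congrArg (fun S : K →L[ℂ] K => S k) hid.eq
    simpa using this
  have hP0sa : ∀ x y : K, ⟪P0 x, y⟫_ℂ = ⟪x, P0 y⟫_ℂ := by
    intro x y
    rw [← ContinuousLinearMap.adjoint_inner_right, ← ContinuousLinearMap.star_eq_adjoint,
      hsa.star_eq]
  have hP0inv : ∀ k, B (P0 k) = P0 (B (P0 k)) := by
    intro k
    have := congrArg (fun S : K →L[ℂ] K => S k) hinv
    simpa using this
  -- orthogonality
  have horth : ∀ l : K, P0 l = 0 → ∀ x ∈ R, ⟪x, p l⟫_ℂ = 0 := by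
    intro l hl x hx
    have hV : IsClosed ((⊥ : Submodule ℂ K) : Set K) := by
      simp
    have hle : R ≤ (Submodule.span ℂ {p l})ᗮ := by
      rw [hR]
      apply Submodule.topologicalClosure_minimal
      · rw [hW, Submodule.span_le]
        rintro _ ⟨T, hT, k, rfl⟩
        rw [SetLike.mem_coe, Submodule.mem_orthogonal_singleton_iff_inner_left, ← hqi,
          hcomm T hT, hP0sa, hl, inner_zero_right]
      · exact Submodule.isClosed_orthogonal _
    have := hle hx
    rwa [Submodule.mem_orthogonal_singleton_iff_inner_left] at this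
  refine ⟨R.starProjection, ?_, ⟨Submodule.isIdempotentElem_starProjection R,
    isSelfAdjoint_starProjection R, ?_, ?_⟩, ?_⟩
  · -- membership in M
    rw [← VonNeumannAlgebra.commutant_commutant M, VonNeumannAlgebra.mem_commutant_iff]
    intro T hT
    rw [VonNeumannAlgebra.mem_commutant_iff] at hT
    have hTc : T ∈ Com A := ⟨hT A hA, hT (star A) (star_mem hA)⟩
    exact pull_comm R T (hComR T hTc) (hComR _ (hComStar T hTc))
  · -- nonzero
    intro h0
    apply hne0
    ext k
    have hk : p (P0 k) ∈ R := hgen 1 hOneCom k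
    have := Submodule.starProjection_eq_self_iff.2 hk
    rw [h0] at this
    have h3 : p (P0 k) = 0 := by simpa using this.symm
    have h4 : P0 k = 0 := by
      have := p.norm_map (P0 k)
      rw [h3, norm_zero] at this
      exact norm_eq_zero.1 this.symm
    rw [h4]; rfl
  · -- not one
    intro h0
    apply hne1
    ext k
    have hl : P0 (k - P0 k) = 0 := by rw [map_sub, hP0id, sub_self]
    have hm : p (k - P0 k) ∈ R := by
      apply Submodule.starProjection_eq_self_iff.1
      rw [h0]; rfl
    have h3 := horth _ hl _ hm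
    have h4 : p (k - P0 k) = 0 := inner_self_eq_zero.1 h3
    have h5 : k - P0 k = 0 := by
      have := p.norm_map (k - P0 k)
      rw [h4, norm_zero] at this
      exact norm_eq_zero.1 this.symm
    rw [sub_eq_zero] at h5
    rw [← h5]; rfl
  · -- invariance
    ext x
    simp only [ContinuousLinearMap.mul_apply]
    have hAR : ∀ x ∈ R, A x ∈ R := by
      apply hclo A R hRc
      intro T hT k
      have hT1' : A (T (p (P0 k))) = T (A (p (P0 k))) := by
        have := congrArg (fun S : H →L[ℂ] H => S (p (P0 k))) hT.1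
        simpa using this
      rw [hT1', h1, hP0inv]
      exact hgen T hT _
    exact (Submodule.starProjection_eq_self_iff.2
      (hAR _ (Submodule.starProjection_apply_mem R x))).symm

end Pool.Agent.H282R6.VR
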