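import Pool.Agent.H282R6.VR.Defs

/-! Separable reducing subspaces. -/

namespace Pool.Agent.H282R6.VR

universe u

variable {H : Type u} [NormedAddCommGroup H] [InnerProductSpace ℂ H] [CompleteSpace H]

/-- words in `A`, `A*` applied to `ξ` -/
noncomputable def sepW (A : H →L[ℂ] H) (ξ : H) : List Bool → H
  | [] => ξ
  | (b :: l) => (if b = true then A else star A) (sepW A ξ l)

theorem sep (A : H →L[ℂ] H) (ξ : H) :
    ∃ K : Submodule ℂ H, IsClosed (K : Set H) ∧ TopologicalSpace.SeparableSpace K ∧ ξ ∈ K ∧
      (∀ x ∈ K, A x ∈ K) ∧ (∀ x ∈ K, (star A) x ∈ K) ∧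
      ∀ R : Submodule ℂ H, IsClosed (R : Set H) → ξ ∈ R → (∀ x ∈ R, A x ∈ R) →
        (∀ x ∈ R, (star A) x ∈ R) → K ≤ R := by
  set S : Set H := Set.range (sepW A ξ) with hS
  have hinv : ∀ B : H →L[ℂ] H, (∀ l, B (sepW A ξ l) ∈ S) →
      ∀ x ∈ (Submodule.span ℂ S).topologicalClosure,
        B x ∈ (Submodule.span ℂ S).topologicalClosure := by
    intro B hB x hx
    have h1 : ∀ y ∈ (Submodule.span ℂ S : Set H), B y ∈ (Submodule.span ℂ S : Set H) := by
      intro y hy
      have h2 : Submodule.span ℂ S ≤ (Submodule.span ℂ S).comap (B : H →ₗ[ℂ] H) := by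
        rw [Submodule.span_le]
        rintro _ ⟨l, rfl⟩
        exact Submodule.subset_span (hB l)
      exact h2 hy
    have hx' : x ∈ closure (Submodule.span ℂ S : Set H) := hx
    exact map_mem_closure B.continuous hx' h1
  refine ⟨(Submodule.span ℂ S).topologicalClosure, Submodule.isClosed_topologicalClosure _, ?_,
    Submodule.le_topologicalClosure _ (Submodule.subset_span ⟨[], rfl⟩), ?_, ?_, ?_⟩
  · have hc : S.Countable := Set.countable_range _
    have h1 : TopologicalSpace.IsSeparable (Submodule.span ℂ S : Set H) :=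
      hc.isSeparable.span
    have h2 : TopologicalSpace.IsSeparable
        (((Submodule.span ℂ S).topologicalClosure : Submodule ℂ H) : Set H) := by
      rw [Submodule.topologicalClosure_coe]
      exact h1.closure
    exact h2.separableSpace
  · exact hinv A (fun l => ⟨true :: l, by simp [sepW]⟩)
  · exact hinv (star A) (fun l => ⟨false :: l, by simp [sepW]⟩)
  · intro R hR h1 h2 h3
    refine Submodule.topologicalClosure_minimal _ ?_ hR
    rw [Submodule.span_le]
    rintro _ ⟨l, rfl⟩
    induction l with
    | nil => exact h1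
    | cons b l ih =>
      cases b
      · simpa [sepW] using h3 _ ih
      · simpa [sepW] using h2 _ ih

end Pool.Agent.H282R6.VR
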