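import Pool.Agent.H282R6.VR.Defs

namespace Pool.Agent.H282R6.VR.Stubs

open Pool.Agent.H282R6.VR

universe u

variable {H : Type u} [NormedAddCommGroup H] [InnerProductSpace ℂ H] [CompleteSpace H]

/-- V1 -/
theorem exists_gen_stub (A : H →L[ℂ] H) : ∃ M : VonNeumannAlgebra H, Generates M A := by sorry

/-- V2 -/
theorem nontriv_of_nonscalar_stub (M : VonNeumannAlgebra H) (A : H →L[ℂ] H) (hA : A ∈ M)
    (h : ∀ c : ℂ, A ≠ c • (1 : H →L[ℂ] H)) : Nontriv M := by sorry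

/-- V3 -/
theorem sep_stub (A : H →L[ℂ] H) (ξ : H) :
    ∃ K : Submodule ℂ H, IsClosed (K : Set H) ∧ TopologicalSpace.SeparableSpace K ∧ ξ ∈ K ∧
      (∀ x ∈ K, A x ∈ K) ∧ (∀ x ∈ K, (star A) x ∈ K) ∧
      ∀ R : Submodule ℂ H, IsClosed (R : Set H) → ξ ∈ R → (∀ x ∈ R, A x ∈ R) →
        (∀ x ∈ R, (star A) x ∈ R) → K ≤ R := by sorry

/-- V4 -/
theorem pull_stub (M : VonNeumannAlgebra H) (A : H →L[ℂ] H) (hA : A ∈ M)
    {K : Type u} [NormedAddCommGroup K] [InnerProductSpace ℂ K] [CompleteSpace K]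
    (p : K →ₗᵢ[ℂ] H) (B : K →L[ℂ] K) (h1 : ∀ k, A (p k) = p (B k))
    (h2 : ∀ k, (star A) (p k) = p ((star B) k)) (N : VonNeumannAlgebra K) (hN : Generates N B)
    (h : HasInv N B) : HasInv M A := by sorry

/-- V5 -/
theorem nonsigma_stub (M : VonNeumannAlgebra H) (A : H →L[ℂ] H) (hA : A ∈ M)
    {ι : Type u} (hι : Uncountable ι) (Q : ι → (H →L[ℂ] H)) (hQ : ∀ i, Q i ∈ M ∧ Q i ≠ 0 ∧
      IsIdempotentElem (Q i) ∧ IsSelfAdjoint (Q i)) (ho : ∀ i j, i ≠ j → Q i * Q j = 0) :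
    HasInv M A := by sorry

/-- V6 -/
theorem cyc_stub {K : Type u} [NormedAddCommGroup K] [InnerProductSpace ℂ K] [CompleteSpace K]
    (B : K →L[ℂ] K) (N : VonNeumannAlgebra K) (hN : Generates N B) (ξ : K)
    (h : ∀ R : Submodule ℂ K, IsClosed (R : Set K) → ξ ∈ R → (∀ x ∈ R, B x ∈ R) →
        (∀ x ∈ R, (star B) x ∈ R) → R = ⊤) : HasCyclic N := by sorry

end Pool.Agent.H282R6.VR.Stubs
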